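import Pool.Agent.H49.BP.Gaps

/-!
# Counting the generalised primes of the system with the holes
-/

set_option autoImplicit false

open MeasureTheory Filter Topology Set

namespace Pool.Agent.H34.BW

open Pool.Agent.H49.BP

section
variable {h : ℝ → ℝ} {n0 : ℕ} {q' : ℕ → ℝ}

/-- the left end of the hole -/
noncomputable def aa (h : ℝ → ℝ) (n0 k : ℕ) : ℝ := tt (NN h n0 k)

/-- the right end of the hole -/
noncomputable def bb (h : ℝ → ℝ) (n0 k : ℕ) : ℝ := tt (hole h (NN h n0 k))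

theorem aa_ge (k : ℕ) : 2 ≤ aa h n0 k := tt_two (by have := NN_ge h n0 k; omega)

theorem aa_lt_bb (k : ℕ) : aa h n0 k + 1 ≤ bb h n0 k := by
  have h1 := hole_gt h (NN h n0 k)
  have h2 := tt_diff_ge h1.le
  have h3 : ((NN h n0 k : ℕ) : ℝ) + 1 ≤ (hole h (NN h n0 k) : ℕ) := by exact_mod_cast h1
  unfold aa bb
  linarith

/-- the number up to `x` is at most the mass plus one -/
theorem pc_le (hq' : ∀ j, q' j ∈ Ioc (tt j) (tt (j + 1))) {x : ℝ} (hx : 1 ≤ x) :
    (pc (qq h n0 q') x : ℝ) ≤ MM x + 1 := by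
  obtain ⟨J, hJ1, hJ2⟩ := exists_slot hx
  have h1 : pc (qq h n0 q') x ≤ J + 1 := by
    by_contra h3
    push Not at h3
    have h4 := (lt_pc (qq_mono h n0 hq') (qq_ge h n0 hq') x (J + 1)).1 h3
    have h5 := qq_gt h n0 hq' (J + 1)
    linarith
  have h2 := MM_le (tt_one_le J) hJ1
  rw [MM_tt] at h2
  have h3 : (pc (qq h n0 q') x : ℝ) ≤ J + 1 := by exact_mod_cast h1
  linarith

/-- outside the holes the number up to `x` is at least the mass minus one -/
theorem le_pc (hq' : ∀ j, q' j ∈ Ioc (tt j) (tt (j + 1))) {x : ℝ} (hx : 1 ≤ x)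
    (hout : ∀ k, aa h n0 k ≤ x → bb h n0 k ≤ x) : MM x - 1 ≤ pc (qq h n0 q') x := by
  obtain ⟨J, hJ1, hJ2⟩ := exists_slot hx
  have h1 : J ≤ pc (qq h n0 q') x := by
    rcases Nat.eq_zero_or_pos J with h0 | h0
    · omega
    · have h2 : J - 1 < pc (qq h n0 q') x := by
        rw [lt_pc (qq_mono h n0 hq') (qq_ge h n0 hq')]
        by_cases he : EE h n0 (J - 1)
        · obtain ⟨k, hk1, hk2⟩ := he
          have h3 : aa h n0 k ≤ x := by
            have : tt (NN h n0 k) ≤ tt J := tt_mono.monotone (by omega)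
            unfold aa
            linarith
          have h4 := hout k h3
          rw [qq_EE h n0 q' hk1 hk2]
          have h5 := (frac_bd hk2).1
          unfold bb at h4
          linarith
        · have h3 := qq_le h n0 hq' he
          rw [Nat.sub_add_cancel h0] at h3
          linarith
      omega
  have h2 := MM_le hx hJ2.le
  rw [MM_tt] at h2
  push_cast at h2
  have h3 : (J : ℝ) ≤ pc (qq h n0 q') x := by exact_mod_cast h1
  linarith

/-- in a hole -/
theorem le_pc_hole (hq' : ∀ j, q' j ∈ Ioc (tt j) (tt (j + 1))) {x : ℝ} {k : ℕ} (hx : aa h n0 k ≤ x) :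
    NN h n0 k ≤ pc (qq h n0 q') x := by
  have h1 := NN_ge h n0 k
  have h2 : NN h n0 k - 1 < pc (qq h n0 q') x := by
    rw [lt_pc (qq_mono h n0 hq') (qq_ge h n0 hq'), qq_SS h n0 q' ⟨k, by omega⟩,
      Nat.sub_add_cancel (by omega)]
    exact hx
  omega

theorem pc_hole (hq' : ∀ j, q' j ∈ Ioc (tt j) (tt (j + 1))) {x : ℝ} {k : ℕ} (hx : aa h n0 k ≤ x)
    (hx2 : x ≤ bb h n0 k - 1) : pc (qq h n0 q') x = NN h n0 k := by
  refine le_antisymm ?_ (le_pc_hole hq' hx)
  by_contra h3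
  push Not at h3
  rw [lt_pc (qq_mono h n0 hq') (qq_ge h n0 hq'), qq_EE h n0 q' le_rfl (hole_gt h _)] at h3
  have h4 := (frac_bd (hole_gt h (NN h n0 k))).2
  unfold bb at hx2
  linarith

/-- the deficiency -/
noncomputable def df (h : ℝ → ℝ) (n0 : ℕ) (q' : ℕ → ℝ) (x : ℝ) : ℝ := MM x - pc (qq h n0 q') x

theorem df_ge (hq' : ∀ j, q' j ∈ Ioc (tt j) (tt (j + 1))) {x : ℝ} (hx : 1 ≤ x) :
    -1 ≤ df h n0 q' x := by
  have := pc_le (h := h) (n0 := n0) hq' hx
  unfold df
  linarith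

/-- the deficiency is at most one, or `x` lies in a hole -/
theorem df_le (hq' : ∀ j, q' j ∈ Ioc (tt j) (tt (j + 1))) {x : ℝ} (hx : 1 ≤ x) :
    df h n0 q' x ≤ 1 ∨ ∃ k, aa h n0 k ≤ x ∧ x < bb h n0 k ∧
      df h n0 q' x ≤ (x - aa h n0 k) / Real.log (aa h n0 k) := by
  by_cases hout : ∀ k, aa h n0 k ≤ x → bb h n0 k ≤ x
  · left
    have := le_pc hq' hx hout
    unfold df
    linarith
  · right
    push Not at hout
    obtain ⟨k, hk1, hk2⟩ := hout
    refine ⟨k, hk1, hk2, ?_⟩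
    have h1 := le_pc_hole hq' hk1
    have h2 : (NN h n0 k : ℝ) ≤ pc (qq h n0 q') x := by exact_mod_cast h1
    have h3 := MM_inc_le (a := aa h n0 k) (b := x) (by linarith [aa_ge (h := h) (n0 := n0) k]) hk1
    have h4 : MM (aa h n0 k) = NN h n0 k := MM_tt _
    unfold df
    linarith

/-- twice the end of a hole lies before the next hole -/
theorem two_bb_lt (k : ℕ) : 2 * bb h n0 k < aa h n0 (k + 1) := by
  set r := hole h (NN h n0 k) with hr
  have hb : bb h n0 k = tt r := rfl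
  have h1 := hole_gt h (NN h n0 k)
  have h2 := NN_ge h n0 k
  have hr3 : 3 ≤ r := by omega
  have ht := tt_ge r
  have ht2 : 2 ≤ tt r := tt_two (by omega)
  have hl : 0 < Real.log (tt r) := log_pos' (by linarith)
  have hlh := log_half ht2
  have h3 := MM_inc_le (a := tt r) (b := 2 * tt r) (by linarith) (by linarith)
  rw [MM_tt] at h3
  have h4 := le_MM_inc (a := 2) (b := tt r) le_rfl ht2
  rw [MM_tt] at h4
  have h5 := MM_nonneg (x := 2) (by norm_num)
  have h6 : tt r / Real.log (tt r) ≤ 2 * r + 4 := by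
    rw [div_le_iff₀ (by positivity)] at h4
    rw [div_le_iff₀ hl]
    have h7 : (r - MM 2) * (2 * Real.log (tt r)) ≤ r * (2 * Real.log (tt r)) :=
      mul_le_mul_of_nonneg_right (by linarith) (by positivity)
    nlinarith
  have h7 : MM (2 * tt r) ≤ 3 * r + 4 := by
    have e : (2 * tt r - tt r) / Real.log (tt r) = tt r / Real.log (tt r) := by ring_nf
    rw [e] at h3
    linarith
  have h8 := NN_succ_gt h n0 k
  have h9 : NN h n0 (k + 1) = r ^ 2 + r + 2 := rfl
  have h10 : (NN h n0 (k + 1) : ℝ) = (r : ℝ) ^ 2 + r + 2 := by rw [h9]; push_cast; ring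
  have h11 : MM (2 * tt r) < MM (aa h n0 (k + 1)) := by
    have e : MM (aa h n0 (k + 1)) = NN h n0 (k + 1) := MM_tt _
    rw [e, h10]
    have h12 : (3 : ℝ) ≤ r := by exact_mod_cast hr3
    nlinarith
  rw [hb]
  exact (MM_lt_iff (by linarith) (by linarith [aa_ge (h := h) (n0 := n0) (k + 1)])).1 h11

theorem bb_lt_aa {k k' : ℕ} (hk : k < k') : 2 * bb h n0 k < aa h n0 k' := by
  refine lt_of_lt_of_le (two_bb_lt k) ?_
  exact tt_mono.monotone ((NN_mono h n0).monotone hk)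

theorem aa_tendsto : Tendsto (aa h n0) atTop atTop := by
  refine tendsto_atTop_mono (f := fun k : ℕ => (k : ℝ)) (fun k => ?_) tendsto_natCast_atTop_atTop
  have h1 := (NN_mono h n0).le_apply (x := k)
  have h2 := tt_ge (NN h n0 k)
  have h3 : (k : ℝ) ≤ NN h n0 k := by exact_mod_cast h1
  unfold aa
  linarith

/-- the length of a hole -/
theorem bb_sub_aa {A : ℝ} (hA : 0 ≤ A)
    (hX : ∀ n, n0 ≤ n → h (tt n) ≤ A * √(tt n) * Real.log (tt n) ∧ 0 ≤ h (tt n)) (k : ℕ) :
    h (aa h n0 k) ≤ bb h n0 k - aa h n0 k ∧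
      bb h n0 k - aa h n0 k ≤ h (aa h n0 k) + 6 * (1 + 4 * A) * Real.log (aa h n0 k) + 1 / 2 := by
  have h1 := NN_ge h n0 k
  have hs : SS h n0 (NN h n0 k - 1) := ⟨k, by omega⟩
  have h2 := hX (NN h n0 k) (by omega)
  have e : NN h n0 k - 1 + 1 = NN h n0 k := by omega
  have h3 := gapB h n0 (fun _ => 0) hA hs (by rw [e]; exact h2.1) (by rw [e]; exact h2.2)
  rw [qq_SS h n0 _ hs, e, qq_EE h n0 _ le_rfl (hole_gt h _)] at h3
  have h4 := (frac_bd (hole_gt h (NN h n0 k))).2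
  have h5 := hole_ge h (NN h n0 k)
  unfold aa bb
  constructor
  · linarith
  · linarith [h3.2]

end

end Pool.Agent.H34.BW
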