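import Pool.Agent.H34.BW.Main

/-!
# Limits and exponents
-/

set_option autoImplicit false

open MeasureTheory Filter Topology Set

namespace Pool.Agent.H34.BW

open Pool.Agent.H49.BP

theorem limsup_coe {f : ℝ → EReal} {l : ℝ} (h1 : ∀ ε : ℝ, 0 < ε → ∀ᶠ x in atTop, f x ≤ ((l + ε : ℝ) : EReal))
    (h2 : ∀ ε : ℝ, 0 < ε → ∃ᶠ x in atTop, ((l - ε : ℝ) : EReal) ≤ f x) : limsup f atTop = (l : EReal) := by
  refine le_antisymm ?_ ?_
  · refine le_of_forall_gt_imp_ge_of_dense fun a ha => ?_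
    obtain ⟨c, hc1, hc2⟩ := EReal.lt_iff_exists_real_btwn.1 ha
    have hc : l < c := EReal.coe_lt_coe_iff.1 hc1
    refine le_trans ?_ hc2.le
    refine limsup_le_of_le (by isBoundedDefault) ?_
    filter_upwards [h1 (c - l) (by linarith)] with n hn
    rwa [add_sub_cancel] at hn
  · refine le_of_forall_lt_imp_le_of_dense fun a ha => ?_
    obtain ⟨c, hc1, hc2⟩ := EReal.lt_iff_exists_real_btwn.1 ha
    have hc : c < l := EReal.coe_lt_coe_iff.1 hc2
    refine hc1.le.trans ?_
    refine le_limsup_of_frequently_le ?_ (by isBoundedDefault)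
    refine (h2 (l - c) (by linarith)).mono fun n hn => ?_
    rwa [sub_sub_cancel] at hn

theorem liminf_coe {f : ℝ → EReal} {l : ℝ} (h1 : ∀ ε : ℝ, 0 < ε → ∀ᶠ x in atTop, ((l - ε : ℝ) : EReal) ≤ f x)
    (h2 : ∀ ε : ℝ, 0 < ε → ∃ᶠ x in atTop, f x ≤ ((l + ε : ℝ) : EReal)) : liminf f atTop = (l : EReal) := by
  refine le_antisymm ?_ ?_
  · refine le_of_forall_gt_imp_ge_of_dense fun a ha => ?_
    obtain ⟨c, hc1, hc2⟩ := EReal.lt_iff_exists_real_btwn.1 ha
    have hc : l < c := EReal.coe_lt_coe_iff.1 hc1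
    refine le_trans ?_ hc2.le
    refine liminf_le_of_frequently_le ?_ (by isBoundedDefault)
    refine (h2 (c - l) (by linarith)).mono fun n hn => ?_
    rwa [add_sub_cancel] at hn
  · refine le_of_forall_lt_imp_le_of_dense fun a ha => ?_
    obtain ⟨c, hc1, hc2⟩ := EReal.lt_iff_exists_real_btwn.1 ha
    have hc : c < l := EReal.coe_lt_coe_iff.1 hc2
    refine hc1.le.trans ?_
    refine le_liminf_of_le (by isBoundedDefault) ?_
    filter_upwards [h1 (l - c) (by linarith)] with n hn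
    rwa [sub_sub_cancel] at hn

namespace Sys

variable {h : ℝ → ℝ} {n0 : ℕ} {q' : ℕ → ℝ} {A : ℝ} (S : Sys h n0 q' A)
include S

theorem primesIn_eq' {x H : ℝ} (hH : 0 ≤ H) :
    (primesIn (qq h n0 q') x H : ℝ) = (pc (qq h n0 q') (x + H) : ℝ) - pc (qq h n0 q') x :=
  primesIn_eq (qq_mono h n0 S.hq') (qq_ge h n0 S.hq') hH

theorem dens_upper {lam ε : ℝ} (hlam : 0 < lam) (hε : 0 < ε) : ∀ᶠ x in atTop, ∀ H ∈ Icc (lam * h x) x,
    dens (qq h n0 q') x H ≤ 1 + 1 / lam + ε := by
  filter_upwards [S.upper hlam hε, S.htop.eventually (eventually_gt_atTop 0)] with x h1 h2 H hH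
  have hH0 : 0 < H := lt_of_lt_of_le (by positivity) hH.1
  unfold dens
  rw [div_le_iff₀ hH0, S.primesIn_eq' hH0.le]
  exact h1 H hH.1 hH.2

theorem dens_lower {lam ε : ℝ} (hlam : 0 < lam) (hε : 0 < ε) : ∀ᶠ x in atTop, ∀ H ∈ Icc (lam * h x) x,
    max 0 (1 - 1 / lam) - ε ≤ dens (qq h n0 q') x H := by
  filter_upwards [S.lower hlam hε, S.htop.eventually (eventually_gt_atTop 0), eventually_gt_atTop 1]
    with x h1 h2 h3 H hH
  have hH0 : 0 < H := lt_of_lt_of_le (by positivity) hH.1
  have hl := log_pos' h3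
  have h4 : 0 ≤ dens (qq h n0 q') x H := by
    unfold dens
    positivity
  have h5 : 1 - 1 / lam - ε ≤ dens (qq h n0 q') x H := by
    unfold dens
    rw [le_div_iff₀ hH0, S.primesIn_eq' hH0.le]
    exact h1 H hH.1 hH.2
  rcases le_total 0 (1 - 1 / lam) with h6 | h6
  · rw [max_eq_right h6]
    exact h5
  · rw [max_eq_left h6]
    linarith

theorem limsup_dens {lam : ℝ} (hlam : 0 < lam) :
    limsup (fun x : ℝ => ⨆ H ∈ Icc (lam * h x) x, ((dens (qq h n0 q') x H : ℝ) : EReal)) atTop =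
      ((1 + 1 / lam : ℝ) : EReal) := by
  refine limsup_coe (fun ε hε => ?_) fun ε hε => ?_
  · filter_upwards [S.dens_upper hlam hε] with x hx
    exact iSup₂_le fun H hH => EReal.coe_le_coe_iff.2 (hx H hH)
  · refine ((S.sharp_upper hlam hε).and_eventually (S.htop.eventually (eventually_gt_atTop 0))).mono
      fun x hx => ?_
    obtain ⟨⟨h1, h2⟩, h3⟩ := hx
    have hH0 : 0 < lam * h x := by positivity
    refine le_trans (EReal.coe_le_coe_iff.2 ?_) (le_iSup₂ (f := fun H (_ : H ∈ Icc (lam * h x) x) =>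
      ((dens (qq h n0 q') x H : ℝ) : EReal)) (lam * h x) ⟨le_rfl, h1⟩)
    unfold dens
    rw [le_div_iff₀ hH0, S.primesIn_eq' hH0.le]
    exact h2

theorem liminf_dens {lam : ℝ} (hlam : 0 < lam) :
    liminf (fun x : ℝ => ⨅ H ∈ Icc (lam * h x) x, ((dens (qq h n0 q') x H : ℝ) : EReal)) atTop =
      ((max 0 (1 - 1 / lam) : ℝ) : EReal) := by
  refine liminf_coe (fun ε hε => ?_) fun ε hε => ?_
  · filter_upwards [S.dens_lower hlam hε] with x hx
    exact le_iInf₂ fun H hH => EReal.coe_le_coe_iff.2 (hx H hH)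
  · refine ((S.sharp_lower hlam hε).and_eventually (S.htop.eventually (eventually_gt_atTop 0))).mono
      fun x hx => ?_
    obtain ⟨⟨H, h1, h2, h3⟩, h4⟩ := hx
    have hH0 : 0 < H := lt_of_lt_of_le (by positivity) h1
    refine le_trans (iInf₂_le (f := fun H (_ : H ∈ Icc (lam * h x) x) =>
      ((dens (qq h n0 q') x H : ℝ) : EReal)) H ⟨h1, h2⟩) (EReal.coe_le_coe_iff.2 ?_)
    unfold dens
    rw [div_le_iff₀ hH0, S.primesIn_eq' hH0.le]
    exact h3

/-- the asymptotic formula above the threshold -/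
theorem above {f : ℝ → ℝ} (hf : ∀ lam : ℝ, 0 < lam → ∀ᶠ x in atTop, lam * h x ≤ f x) {δ : ℝ} (hδ : 0 < δ) :
    ∀ᶠ x in atTop, ∀ H ∈ Icc (f x) x, |dens (qq h n0 q') x H - 1| ≤ δ := by
  have hl : 0 < 2 / δ := by positivity
  filter_upwards [S.dens_upper hl (half_pos hδ), S.dens_lower hl (half_pos hδ), hf _ hl] with x h1 h2 h3 H hH
  have h4 := h1 H ⟨h3.trans hH.1, hH.2⟩
  have h5 := h2 H ⟨h3.trans hH.1, hH.2⟩
  have e : 1 / (2 / δ) = δ / 2 := by field_simp
  rw [e] at h4 h5
  have h6 := le_max_right 0 (1 - δ / 2)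
  rw [abs_le]
  constructor <;> linarith

/-- no generalised primes below the threshold -/
theorem below {f : ℝ → ℝ} (hf : ∀ᶠ x in atTop, 0 ≤ f x ∧ f x + 1 ≤ h x) :
    ∃ᶠ x in atTop, primesIn (qq h n0 q') x (f x) = 0 := by
  refine (aa_tendsto (h := h) (n0 := n0)).frequently (Eventually.frequently ?_)
  filter_upwards [aa_tendsto.eventually hf] with k hk
  have h1 := (bb_sub_aa S.hA S.hX k).1
  have h2 := aa_lt_bb (h := h) (n0 := n0) k
  have h3 := S.primesIn_eq' (x := aa h n0 k) hk.1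
  rw [pc_hole S.hq' (k := k) (x := aa h n0 k) le_rfl (by linarith),
    pc_hole S.hq' (k := k) (x := aa h n0 k + f (aa h n0 k)) (by linarith) (by linarith), sub_self] at h3
  exact_mod_cast h3

end Sys

/-! ### powers -/

theorem rpow_mul_le {a b c : ℝ} (hab : a < b) : ∀ᶠ x : ℝ in atTop, c * x ^ a ≤ x ^ b := by
  have h1 : Tendsto (fun x : ℝ => x ^ (b - a)) atTop atTop := tendsto_rpow_atTop (by linarith)
  filter_upwards [h1.eventually (eventually_ge_atTop c), eventually_gt_atTop 0] with x h2 h3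
  calc c * x ^ a ≤ x ^ (b - a) * x ^ a := mul_le_mul_of_nonneg_right h2 (Real.rpow_nonneg h3.le _)
    _ = x ^ b := by
      rw [← Real.rpow_add h3]
      congr 1
      ring

theorem selfNeglecting_rpow {θ : ℝ} (h0 : 0 < θ) (h1 : θ ≤ 1 / 2) : SelfNeglecting fun x => x ^ θ := by
  intro C ε hε
  have h2 : θ * θ < θ := by nlinarith
  filter_upwards [rpow_mul_le (c := (|C| + 1) ^ θ / ε) h2, eventually_gt_atTop 1,
    rpow_mul_le (a := θ) (b := 1) (c := |C| + 1) (by linarith)] with x h3 h4 h5 y hy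
  have hx0 : 0 < x := by linarith
  have hxθ : 0 < x ^ θ := Real.rpow_pos_of_pos hx0 _
  rw [Real.rpow_one] at h5
  have h6 : |y - x| ≤ (|C| + 1) * x ^ θ := by
    refine hy.trans (mul_le_mul_of_nonneg_right ?_ hxθ.le)
    have := le_abs_self C
    linarith
  have hy0 : 0 ≤ y := by
    have := (abs_le.1 (h6.trans h5)).1
    linarith
  have h7 : |y ^ θ - x ^ θ| ≤ |y - x| ^ θ := by
    have hd : 0 ≤ |y - x| := abs_nonneg _
    rw [abs_le]
    constructor
    · have h8 : x ≤ y + |y - x| := by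
        have := neg_abs_le (y - x)
        linarith
      have h9 := Real.rpow_le_rpow hx0.le h8 h0.le
      have h10 := Real.rpow_add_le_add_rpow hy0 hd h0.le (by linarith)
      linarith
    · have h8 : y ≤ x + |y - x| := by
        have := le_abs_self (y - x)
        linarith
      have h9 := Real.rpow_le_rpow hy0 h8 h0.le
      have h10 := Real.rpow_add_le_add_rpow hx0.le hd h0.le (by linarith)
      linarith
  refine h7.trans ?_
  calc |y - x| ^ θ ≤ ((|C| + 1) * x ^ θ) ^ θ := Real.rpow_le_rpow (abs_nonneg _) h6 h0.le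
    _ = (|C| + 1) ^ θ * x ^ (θ * θ) := by
        rw [Real.mul_rpow (by positivity) hxθ.le, ← Real.rpow_mul hx0.le]
    _ = ε * ((|C| + 1) ^ θ / ε * x ^ (θ * θ)) := by field_simp
    _ ≤ ε * x ^ θ := mul_le_mul_of_nonneg_left h3 hε.le

theorem log_pow_le {ε : ℝ} (hε : 0 < ε) (k : ℕ) (c : ℝ) : ∀ᶠ x : ℝ in atTop, c * Real.log x ^ k ≤ x ^ ε := by
  have h := (isLittleO_log_rpow_rpow_atTop (k : ℝ) hε).bound (c := 1 / (|c| + 1)) (by positivity)
  filter_upwards [h, eventually_gt_atTop 1] with x hx h1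
  have hl := log_pos' h1
  rw [Real.norm_of_nonneg (Real.rpow_nonneg hl.le _), Real.norm_of_nonneg (by positivity), Real.rpow_natCast] at hx
  have h2 : (|c| + 1) * Real.log x ^ k ≤ x ^ ε := by
    have := mul_le_mul_of_nonneg_left hx (show 0 ≤ |c| + 1 by positivity)
    calc _ ≤ _ := this
      _ = x ^ ε := by field_simp
  have h3 : c * Real.log x ^ k ≤ (|c| + 1) * Real.log x ^ k :=
    mul_le_mul_of_nonneg_right (by linarith [le_abs_self c]) (by positivity)
  linarith

theorem selfNeglecting_log : SelfNeglecting fun x => Real.log x ^ 2 := by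
  intro C ε hε
  have h1 := log_pow_le (ε := 1) one_pos 2 (2 * (|C| + 1))
  have h2 := log_pow_le (ε := 1) one_pos 1 (6 * (|C| + 1) / ε)
  filter_upwards [h1, h2, eventually_gt_atTop 1, Real.tendsto_log_atTop.eventually (eventually_ge_atTop 1)]
    with x h3 h4 h5 h6 y hy
  rw [Real.rpow_one] at h3 h4
  rw [pow_one] at h4
  have hx0 : 0 < x := by linarith
  have hl := log_pos' h5
  set L := Real.log x with hL
  have h7 : |y - x| ≤ (|C| + 1) * L ^ 2 := by
    refine hy.trans (mul_le_mul_of_nonneg_right ?_ (by positivity))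
    have := le_abs_self C
    linarith
  have h8 : |y - x| ≤ x / 2 := by linarith
  have h9 := abs_le.1 h8
  have hy0 : 0 < y := by linarith [h9.1]
  have h10 : |Real.log y - L| ≤ 2 * |y - x| / x := by
    rw [abs_le]
    constructor
    · -- log x - log y ≤ x / y - 1
      have h11 := Real.log_le_sub_one_of_pos (x := x / y) (by positivity)
      rw [Real.log_div hx0.ne' hy0.ne'] at h11
      have h12 : x / y - 1 ≤ 2 * |y - x| / x := by
        have e : x / y - 1 = (x - y) / y := by field_simp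
        rw [e]
        have h13 : x - y ≤ |y - x| := by
          have := neg_abs_le (y - x)
          linarith
        calc (x - y) / y ≤ |y - x| / y := div_le_div_of_nonneg_right h13 hy0.le
          _ ≤ |y - x| / (x / 2) := div_le_div_of_nonneg_left (abs_nonneg _) (by positivity) (by linarith [h9.1])
          _ = 2 * |y - x| / x := by field_simp
      linarith
    · have h11 := Real.log_le_sub_one_of_pos (x := y / x) (by positivity)
      rw [Real.log_div hy0.ne' hx0.ne'] at h11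
      have h12 : y / x - 1 ≤ 2 * |y - x| / x := by
        have e : y / x - 1 = (y - x) / x := by field_simp
        rw [e]
        refine div_le_div_of_nonneg_right ?_ hx0.le
        have := le_abs_self (y - x)
        have := abs_nonneg (y - x)
        linarith
      linarith
  have h11 : |Real.log y - L| ≤ 1 := by
    refine h10.trans ?_
    rw [div_le_one hx0]
    linarith
  have h12 : |Real.log y + L| ≤ 3 * L := by
    have h13 := abs_le.1 h11
    rw [abs_le]
    constructor <;> linarith [h13.1, h13.2]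
  have e : Real.log y ^ 2 - L ^ 2 = (Real.log y - L) * (Real.log y + L) := by ring
  show |Real.log y ^ 2 - L ^ 2| ≤ ε * L ^ 2
  rw [e, abs_mul]
  have h13 : 6 * (|C| + 1) * L ≤ ε * x := by
    have := mul_le_mul_of_nonneg_left h4 hε.le
    calc 6 * (|C| + 1) * L = ε * (6 * (|C| + 1) / ε * L) := by field_simp
      _ ≤ _ := this
  calc |Real.log y - L| * |Real.log y + L| ≤ (2 * |y - x| / x) * (3 * L) :=
        mul_le_mul h10 h12 (abs_nonneg _) (by positivity)
    _ ≤ (2 * ((|C| + 1) * L ^ 2) / x) * (3 * L) := by gcongr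
    _ = (6 * (|C| + 1) * L) / x * L ^ 2 := by ring
    _ ≤ ε * L ^ 2 := by
        refine mul_le_mul_of_nonneg_right ?_ (by positivity)
        rwa [div_le_iff₀ hx0]

end Pool.Agent.H34.BW
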