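import Pool.Agent.H34.BW.Thr

/-!
# The systems with the Riemann hypothesis
-/

set_option autoImplicit false

open MeasureTheory Filter Topology Set

namespace Pool.Agent.H34.BW

open Pool.Agent.H49.BP

/-- The number of generalised primes up to `x`. -/
noncomputable def primeCount (q : ℕ → ℝ) (x : ℝ) : ℕ := {j : ℕ | q j ≤ x}.ncard

/-- The number of generalised integers up to `x`, with multiplicity. -/
noncomputable def intCount (q : ℕ → ℝ) (x : ℝ) : ℕ := {n : ℕ | 1 ≤ n ∧ gint q n ≤ x}.ncard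

/-- The generalised primes `q` satisfy the analogues of the Riemann hypothesis and of the Lindelöf hypothesis: they increase
strictly from `q 0 > 1`; their number up to `x` is `∫_2^x du / log u + O(√x)`; the number of the generalised integers up to `x` is
`ρ x + O(x ^ (1 / 2 + ε))` for every `ε > 0`, with a `ρ > 0`; the zeta function is `s / (s - 1) * exp (G s)` for `Re s > 1`, with a function
`G` that is holomorphic in `Re s > 1 / 2` and at most `C √(log (|Im s| + 3))` for `Re s ≥ σ`, for every `σ > 1 / 2`. -/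
def RHSystem (q : ℕ → ℝ) : Prop :=
  StrictMono q ∧ 1 < q 0 ∧
    (∃ C : ℝ, ∀ x : ℝ, 2 ≤ x → |(primeCount q x : ℝ) - ∫ u in (2 : ℝ)..x, (Real.log u)⁻¹| ≤ C * √x) ∧
    (∃ ρ : ℝ, 0 < ρ ∧ ∀ ε : ℝ, 0 < ε → ∃ C : ℝ, ∀ x : ℝ, 1 ≤ x →
      |(intCount q x : ℝ) - ρ * x| ≤ C * x ^ (1 / 2 + ε)) ∧
    ∃ G : ℂ → ℂ, DifferentiableOn ℂ G {s | 1 / 2 < s.re} ∧
      (∀ s : ℂ, 1 < s.re → ∑' n : ℕ, ((gint q (n + 1) : ℝ) : ℂ) ^ (-s) = s / (s - 1) * Complex.exp (G s)) ∧
      ∀ σ : ℝ, 1 / 2 < σ → ∃ C : ℝ, ∀ s : ℂ, σ ≤ s.re → ‖G s‖ ≤ C * √(Real.log (|s.im| + 3))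

theorem rhSystem {q q' : ℕ → ℝ} {B : ℝ} (hq'2 : Samp q') (hB : 0 ≤ B) (hmono : StrictMono q)
    (hgt : ∀ j, tt j < q j) (hF : Few q q' B) : RHSystem q := by
  have hg : ∀ j : ℕ, (j : ℝ) + 1 ≤ q j := fun j => (tt_ge j).trans (hgt j).le
  have hq0 : 1 < q 0 := by
    have := hgt 0
    rwa [tt_zero] at this
  have hD : Disc q := disc_of hmono hg hgt hB hF hq'2
  obtain ⟨G, hG1, hG2, hG3, ρ, hρ, hN⟩ := zeta hmono hg hq0 hD
  refine ⟨hmono, hq0, primes_of hmono hg hgt hB hF, ⟨ρ, hρ, fun ε hε => ?_⟩, G, hG1, hG2, hG3⟩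
  obtain ⟨C, hC⟩ := hN ε hε
  refine ⟨C, fun x hx => ?_⟩
  have e : intCount q x = {n : ℕ | gint q (n + 1) ≤ x}.ncard := by
    unfold intCount
    have h1 : {n : ℕ | 1 ≤ n ∧ gint q n ≤ x} = (fun n => n + 1) '' {n : ℕ | gint q (n + 1) ≤ x} := by
      ext n
      constructor
      · rintro ⟨h2, h3⟩
        refine ⟨n - 1, ?_, by simp only; omega⟩
        show gint q (n - 1 + 1) ≤ x
        rw [Nat.sub_add_cancel h2]
        exact h3
      · rintro ⟨k, hk, rfl⟩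
        exact ⟨by simp only; omega, hk⟩
    rw [h1, Set.ncard_image_of_injective _ (fun a b hab => by simpa using hab)]
  rw [e]
  exact hC x hx

/-- the system -/
theorem exists_sys {h : ℝ → ℝ} (hsn : SelfNeglecting h) (hlim : Tendsto (fun x => h x / Real.log x) atTop atTop)
    (hup : ∃ A : ℝ, ∀ᶠ x in atTop, h x ≤ A * √x * Real.log x) :
    ∃ (n0 : ℕ) (q' : ℕ → ℝ) (A : ℝ), Sys h n0 q' A ∧ RHSystem (qq h n0 q') := by
  obtain ⟨q', hq', hq'2⟩ := sample
  obtain ⟨A0, hA0⟩ := hup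
  set A := max A0 0 with hAdef
  have hA : 0 ≤ A := le_max_right _ _
  have hev : ∀ᶠ x in atTop, h x ≤ A * √x * Real.log x ∧ 0 ≤ h x := by
    filter_upwards [hA0, hlim.eventually (eventually_ge_atTop 0), eventually_gt_atTop 1] with x h1 h2 h3
    have hl := log_pos' h3
    refine ⟨h1.trans ?_, ?_⟩
    · have : A0 ≤ A := le_max_left _ _
      gcongr
    · have h4 := mul_nonneg h2 hl.le
      rwa [div_mul_cancel₀ _ hl.ne'] at h4
  obtain ⟨X, hX⟩ := hev.exists_forall_of_atTop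
  obtain ⟨n0, hn0⟩ := exists_nat_ge X
  have hX' : ∀ n, n0 ≤ n → h (tt n) ≤ A * √(tt n) * Real.log (tt n) ∧ 0 ≤ h (tt n) := by
    intro n hn
    refine hX _ ?_
    have h1 := tt_ge n
    have h2 : (n0 : ℝ) ≤ n := by exact_mod_cast hn
    linarith
  refine ⟨n0, q', A, ⟨hq', hA, hX', hlim, hev.mono fun x hx => hx.1, hsn⟩, ?_⟩
  refine rhSystem (B := A + 4) hq'2 (by positivity) (qq_mono h n0 hq') (qq_gt h n0 hq') ?_
  intro J
  obtain ⟨E, hE1, hE2⟩ := exc_card h hA (n0 := n0) (fun n hn => (hX' n hn).1) J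
  refine ⟨E, fun j hj hjE => ?_, hE2⟩
  have h1 : ¬ SS h n0 j := fun hs => hjE (hE1 j hj (Or.inl hs))
  have h2 : ¬ EE h n0 j := fun he => hjE (hE1 j hj (Or.inr he))
  exact ⟨qq_other h n0 q' h1 h2, qq_le h n0 hq' h2⟩

/-- The number of generalised primes in `(x, x + H]`. -/
noncomputable def primesIn (q : ℕ → ℝ) (x H : ℝ) : ℕ := {j : ℕ | x < q j ∧ q j ≤ x + H}.ncard

/-- The density `π(x, H) log x / H` of the generalised primes in `(x, x + H]`, relative to the expected one. -/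
noncomputable def dens (q : ℕ → ℝ) (x H : ℝ) : ℝ := primesIn q x H * Real.log x / H

theorem primesIn_eq {q : ℕ → ℝ} (hq : StrictMono q) (hg : ∀ j : ℕ, (j : ℝ) + 1 ≤ q j) {x H : ℝ} (hH : 0 ≤ H) :
    (primesIn q x H : ℝ) = (pc q (x + H) : ℝ) - pc q x := by
  have h1 : {j : ℕ | x < q j ∧ q j ≤ x + H} = ((Finset.Ico (pc q x) (pc q (x + H)) : Finset ℕ) : Set ℕ) := by
    ext j
    rw [Set.mem_ofPred_eq, Finset.coe_Ico, Set.mem_Ico, lt_pc hq hg]
    have h2 := lt_pc hq hg x j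
    constructor
    · rintro ⟨h3, h4⟩
      refine ⟨?_, h4⟩
      by_contra h5
      push Not at h5
      exact absurd (h2.1 h5) (not_le.2 h3)
    · rintro ⟨h3, h4⟩
      refine ⟨?_, h4⟩
      by_contra h5
      push Not at h5
      exact absurd (h2.2 h5) (not_lt.2 h3)
  unfold primesIn
  rw [h1, Set.ncard_coe_finset, Nat.card_Ico, Nat.cast_sub]
  exact pc_mono hq hg (by linarith)

end Pool.Agent.H34.BW
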