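import Pool.Agent.H34.BW.Count

/-!
# Self-neglecting functions
-/

set_option autoImplicit false

open MeasureTheory Filter Topology Set

namespace Pool.Agent.H34.BW

open Pool.Agent.H49.BP

/-- `h` is self-neglecting (slowly varying in the sense of Beurling): `h y / h x → 1` uniformly for
`|y - x| ≤ C h x`, as `x → ∞`, for every `C` -/
def SelfNeglecting (h : ℝ → ℝ) : Prop :=
  ∀ C ε : ℝ, 0 < ε → ∀ᶠ x in atTop, ∀ y : ℝ, |y - x| ≤ C * h x → |h y - h x| ≤ ε * h x

/-- far away -/
theorem step_aux {h : ℝ → ℝ} {ε X : ℝ} (hε : 0 < ε) (h1 : ∀ x, X ≤ x → 1 ≤ h x)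
    (h2 : ∀ x, X ≤ x → ∀ y : ℝ, |y - x| ≤ 1 * h x → |h y - h x| ≤ ε * h x) (n : ℕ) :
    ∀ x, X ≤ x → ∀ y, x ≤ y → y ≤ x + n → h y ≤ (1 + ε) * (h x + ε * (y - x)) := by
  induction n with
  | zero =>
    intro x hx y hxy hy
    have e : y = x := by
      push_cast at hy
      linarith
    have := h1 x hx
    rw [e]
    nlinarith
  | succ n ih =>
    intro x hx y hxy hy
    have hp := h1 x hx
    rcases le_or_gt y (x + h x) with h3 | h3
    · have h4 := h2 x hx y (by rw [abs_of_nonneg (by linarith)]; linarith)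
      have h5 := (abs_le.1 h4).2
      have h6 : 0 ≤ ε * (y - x) := mul_nonneg hε.le (by linarith)
      have h7 : 0 ≤ (1 + ε) * (ε * (y - x)) := by positivity
      nlinarith
    · have h4 := h2 x hx (x + h x) (by
        rw [abs_of_nonneg (by linarith)]
        linarith)
      have h5 := (abs_le.1 h4).2
      have h6 := ih (x + h x) (by linarith) y h3.le (by
        push_cast at hy
        linarith)
      refine h6.trans (mul_le_mul_of_nonneg_left ?_ (by linarith))
      nlinarith

theorem SelfNeglecting.far {h : ℝ → ℝ} (hs : SelfNeglecting h) (htop : Tendsto h atTop atTop) {ε : ℝ}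
    (hε : 0 < ε) : ∀ᶠ x in atTop, ∀ y, x ≤ y → h y ≤ (1 + ε) * (h x + ε * (y - x)) := by
  obtain ⟨X, hX⟩ := ((hs 1 ε hε).and (htop.eventually (eventually_ge_atTop 1))).exists_forall_of_atTop
  filter_upwards [eventually_ge_atTop X] with x hx y hxy
  obtain ⟨n, hn⟩ := exists_nat_ge (y - x)
  exact step_aux hε (fun z hz => (hX z hz).2) (fun z hz => (hX z hz).1) n x hx y hxy (by linarith)

/-- the mass of a short interval -/
theorem mass_ge {ε : ℝ} (hε : 0 < ε) : ∀ᶠ x : ℝ in atTop, ∀ H : ℝ, 0 ≤ H → H ≤ x →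
    (1 - ε) * H ≤ (MM (x + H) - MM x) * Real.log x := by
  have hlog : ∀ᶠ x : ℝ in atTop, 2 / ε ≤ Real.log x := Real.tendsto_log_atTop.eventually (eventually_ge_atTop _)
  filter_upwards [hlog, eventually_ge_atTop (2 / ε), eventually_gt_atTop 2] with x h1 h2 h3 H hH0 hHx
  have hl : 0 < Real.log x := log_pos' (by linarith)
  have hl2 : Real.log 2 ≤ 1 := by
    have := Real.log_two_lt_d9
    linarith
  have hl2' : 0 < Real.log 2 := Real.log_pos (by norm_num)
  have hx0 : 0 < x := by linarith
  have e1 : 1 ≤ ε / 2 * Real.log x := by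
    rw [div_le_iff₀ hε] at h1
    linarith
  have e2 : x⁻¹ ≤ ε / 2 := by
    rw [inv_le_comm₀ hx0 (by positivity), inv_div]
    exact h2
  have hmd : ∀ u ∈ Icc x (x + H), (1 - ε) / Real.log x ≤ md u := by
    intro u hu
    have hu0 : 0 < u := by linarith [hu.1]
    have hlu : 0 < Real.log u := log_pos' (by linarith [hu.1])
    have h4 : Real.log u ≤ Real.log x + 1 := by
      have h5 : u ≤ 2 * x := by linarith [hu.2]
      have h6 := Real.log_le_log hu0 h5
      rw [Real.log_mul (by norm_num) hx0.ne'] at h6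
      linarith
    have h5 : u⁻¹ ≤ ε / 2 := (inv_anti₀ hx0 hu.1).trans e2
    unfold md
    rw [div_le_div_iff₀ hl hlu]
    rcases le_or_gt ε 1 with h6 | h6
    · calc (1 - ε) * Real.log u ≤ (1 - ε) * (Real.log x + 1) :=
            mul_le_mul_of_nonneg_left h4 (by linarith)
        _ ≤ (1 - ε / 2) * Real.log x := by nlinarith
        _ ≤ (1 - u⁻¹) * Real.log x := mul_le_mul_of_nonneg_right (by linarith) hl.le
    · have h7 : (1 - ε) * Real.log u ≤ 0 := mul_nonpos_of_nonpos_of_nonneg (by linarith) hlu.le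
      have h8 : u⁻¹ ≤ 1 := inv_le_one_of_one_le₀ (by linarith [hu.1])
      have h9 : 0 ≤ (1 - u⁻¹) * Real.log x := mul_nonneg (by linarith) hl.le
      linarith
  have h4 := intervalIntegral.integral_mono_on (show x ≤ x + H by linarith)
    (intervalIntegrable_const (c := (1 - ε) / Real.log x)) (md_int (by linarith) (by linarith)) hmd
  rw [intervalIntegral.integral_const, smul_eq_mul, ← MM_sub (by linarith) (by linarith)] at h4
  have h5 := mul_le_mul_of_nonneg_right h4 hl.le
  have e3 : (x + H - x) * ((1 - ε) / Real.log x) * Real.log x = (1 - ε) * H := by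
    field_simp
    ring
  linarith

/-- the mass of a short interval, from above -/
theorem mass_le {x H : ℝ} (hx : 1 < x) (hH : 0 ≤ H) : (MM (x + H) - MM x) * Real.log x ≤ H := by
  have h1 := MM_inc_le hx (show x ≤ x + H by linarith)
  have hl := log_pos' hx
  have h2 := mul_le_mul_of_nonneg_right h1 hl.le
  have e : (x + H - x) / Real.log x * Real.log x = H := by
    field_simp
    ring
  linarith

end Pool.Agent.H34.BW
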