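import Pool.Agent.H34.BW.Reg

/-!
# The threshold
-/

set_option autoImplicit false

open MeasureTheory Filter Topology Set

namespace Pool.Agent.H34.BW

open Pool.Agent.H49.BP

/-- the data of the system with the holes -/
structure Sys (h : ℝ → ℝ) (n0 : ℕ) (q' : ℕ → ℝ) (A : ℝ) : Prop where
  hq' : ∀ j, q' j ∈ Ioc (tt j) (tt (j + 1))
  hA : 0 ≤ A
  hX : ∀ n, n0 ≤ n → h (tt n) ≤ A * √(tt n) * Real.log (tt n) ∧ 0 ≤ h (tt n)
  hlim : Tendsto (fun x => h x / Real.log x) atTop atTop
  hup : ∀ᶠ x in atTop, h x ≤ A * √x * Real.log x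
  hsn : SelfNeglecting h

namespace Sys

variable {h : ℝ → ℝ} {n0 : ℕ} {q' : ℕ → ℝ} {A : ℝ} (S : Sys h n0 q' A)
include S

theorem log_small {ε : ℝ} (hε : 0 < ε) : ∀ᶠ x in atTop, Real.log x ≤ ε * h x := by
  filter_upwards [S.hlim.eventually (eventually_ge_atTop (1 / ε)), eventually_gt_atTop 1] with x h1 h2
  have hl := log_pos' h2
  rw [div_le_div_iff₀ hε hl] at h1
  linarith

theorem htop : Tendsto h atTop atTop := by
  refine tendsto_atTop_mono' (f₁ := fun x => Real.log x) (f₂ := h) _ ?_ Real.tendsto_log_atTop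
  filter_upwards [S.log_small one_pos] with x h1
  linarith

theorem h_small {ε : ℝ} (hε : 0 < ε) : ∀ᶠ x in atTop, h x ≤ ε * x := by
  have h1 : ∀ᶠ x : ℝ in atTop, ‖Real.log x‖ ≤ ε / (A + 1) * ‖x ^ (1 / 2 : ℝ)‖ :=
    (isLittleO_log_rpow_atTop (show (0 : ℝ) < 1 / 2 by norm_num)).bound (div_pos hε (by linarith [S.hA]))
  filter_upwards [h1, S.hup, eventually_gt_atTop 1] with x h2 h3 h4
  have hl := log_pos' h4
  have hA := S.hA
  rw [Real.norm_of_nonneg hl.le, Real.norm_of_nonneg (by positivity), ← Real.sqrt_eq_rpow] at h2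
  refine h3.trans ?_
  have h5 : √x * √x = x := Real.mul_self_sqrt (by linarith)
  have h6 : 0 ≤ √x := Real.sqrt_nonneg x
  calc A * √x * Real.log x ≤ (A + 1) * √x * (ε / (A + 1) * √x) := by
        refine mul_le_mul ?_ h2 hl.le (by positivity)
        exact mul_le_mul_of_nonneg_right (by linarith) h6
    _ = ε * (√x * √x) := by
        field_simp
    _ = ε * x := by rw [h5]

omit S in
theorem hole_large (X : ℝ) : ∀ᶠ x in atTop, ∀ k, x < bb h n0 k → X ≤ aa h n0 k := by
  obtain ⟨K, hK⟩ := (aa_tendsto (h := h) (n0 := n0)).eventually (eventually_ge_atTop X) |>.exists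
  filter_upwards [eventually_ge_atTop (aa h n0 K)] with x hx k hk
  have h1 : K ≤ k := by
    by_contra h2
    push Not at h2
    have h3 := bb_lt_aa (h := h) (n0 := n0) h2
    have h4 := aa_lt_bb (h := h) (n0 := n0) k
    have h5 := aa_ge (h := h) (n0 := n0) k
    linarith
  refine hK.trans ?_
  exact tt_mono.monotone ((NN_mono h n0).monotone h1)

theorem len {ε : ℝ} (hε : 0 < ε) : ∀ᶠ a in atTop, ∀ k, aa h n0 k = a →
    bb h n0 k - a ≤ (1 + ε) * h a := by
  have hA := S.hA
  have h0 : (0 : ℝ) < 6 * (1 + 4 * A) + 1 := by positivity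
  filter_upwards [S.log_small (ε := ε / (6 * (1 + 4 * A) + 1)) (by positivity), eventually_ge_atTop 2]
    with a h1 h2 k hk
  have h3 := (bb_sub_aa S.hA S.hX k).2
  rw [hk] at h3
  have h4 := log_half h2
  have h5 : (6 * (1 + 4 * A) + 1) * Real.log a ≤ ε * h a := by
    have := mul_le_mul_of_nonneg_left h1 h0.le
    calc _ ≤ _ := this
      _ = ε * h a := by field_simp
  linarith

/-- in a hole -/
theorem in_hole {δ : ℝ} (hδ : 0 < δ) (hδ1 : δ ≤ 1) : ∀ᶠ x in atTop, ∀ k, aa h n0 k ≤ x → x < bb h n0 k →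
    x - aa h n0 k ≤ (1 + δ) * h (aa h n0 k) ∧ |h x - h (aa h n0 k)| ≤ δ * h (aa h n0 k) ∧
      Real.log x ≤ (1 + δ) * Real.log (aa h n0 k) ∧ 0 < h (aa h n0 k) ∧ 0 < Real.log (aa h n0 k) := by
  have hev := (S.len hδ).and ((S.hsn 2 δ hδ).and ((S.h_small (ε := 1 / 2) (by norm_num)).and
    ((S.htop.eventually (eventually_gt_atTop 0)).and
      ((Real.tendsto_log_atTop.eventually (eventually_ge_atTop (1 / δ))).and (eventually_gt_atTop 1)))))
  obtain ⟨X, hX⟩ := hev.exists_forall_of_atTop
  filter_upwards [hole_large (h := h) (n0 := n0) X] with x hx k hk1 hk2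
  obtain ⟨h1, h2, h3, h4, h5, h6⟩ := hX _ (hx k hk2)
  have h7 := h1 k rfl
  have h8 : x - aa h n0 k ≤ (1 + δ) * h (aa h n0 k) := by linarith
  have h9 : x - aa h n0 k ≤ 2 * h (aa h n0 k) := by nlinarith
  have hl := log_pos' h6
  refine ⟨h8, h2 x (by rw [abs_of_nonneg (by linarith)]; exact h9), ?_, h4, hl⟩
  have h10 : x ≤ 2 * aa h n0 k := by linarith
  have h11 := Real.log_le_log (by linarith) h10
  rw [Real.log_mul (by norm_num) (by linarith)] at h11
  have h12 : Real.log 2 ≤ 1 := by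
    have := Real.log_two_lt_d9
    linarith
  rw [div_le_iff₀ hδ] at h5
  linarith

theorem df_bound {ε : ℝ} (hε : 0 < ε) : ∀ᶠ x in atTop, df h n0 q' x * Real.log x ≤ (1 + ε) * h x := by
  set δ := min ε 1 / 8 with hδ
  have hδ0 : 0 < δ := by positivity
  have hδ1 : δ ≤ 1 / 8 := by
    have := min_le_right ε 1
    linarith
  have hδε : 8 * δ ≤ ε := by
    have := min_le_left ε 1
    linarith
  filter_upwards [S.in_hole hδ0 (by linarith), S.log_small one_pos, eventually_gt_atTop 1] with x h1 h2 h3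
  have hl := log_pos' h3
  have hh : 0 < h x := by linarith
  rcases df_le (h := h) (n0 := n0) S.hq' h3.le with h4 | ⟨k, hk1, hk2, hk3⟩
  · calc df h n0 q' x * Real.log x ≤ 1 * Real.log x := mul_le_mul_of_nonneg_right h4 hl.le
      _ ≤ (1 + ε) * h x := by nlinarith
  · obtain ⟨h5, h6, h7, h8, h9⟩ := h1 k hk1 hk2
    set a := aa h n0 k with ha
    have h10 := (abs_le.1 h6).1
    have hxa : 0 ≤ x - a := by linarith
    calc df h n0 q' x * Real.log x ≤ (x - a) / Real.log a * Real.log x :=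
          mul_le_mul_of_nonneg_right hk3 hl.le
      _ ≤ (x - a) / Real.log a * ((1 + δ) * Real.log a) :=
          mul_le_mul_of_nonneg_left h7 (by positivity)
      _ = (1 + δ) * (x - a) := by field_simp
      _ ≤ (1 + δ) * ((1 + δ) * h a) := mul_le_mul_of_nonneg_left h5 (by positivity)
      _ ≤ (1 + ε) * ((1 - δ) * h a) := by
          have h11 : (1 + δ) * (1 + δ) ≤ (1 + ε) * (1 - δ) := by
            have h12 : (1 + 8 * δ) * (1 - δ) ≤ (1 + ε) * (1 - δ) :=
              mul_le_mul_of_nonneg_right (by linarith) (by linarith)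
            nlinarith
          calc (1 + δ) * ((1 + δ) * h a) = (1 + δ) * (1 + δ) * h a := by ring
            _ ≤ (1 + ε) * (1 - δ) * h a := mul_le_mul_of_nonneg_right h11 h8.le
            _ = _ := by ring
      _ ≤ (1 + ε) * h x := mul_le_mul_of_nonneg_left (by linarith) (by linarith)

/-- the number of generalised primes in `(x, x + H]` -/
theorem upper {lam ε : ℝ} (hlam : 0 < lam) (hε : 0 < ε) : ∀ᶠ x in atTop, ∀ H, lam * h x ≤ H → H ≤ x →
    ((pc (qq h n0 q') (x + H) : ℝ) - pc (qq h n0 q') x) * Real.log x ≤ (1 + 1 / lam + ε) * H := by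
  set δ := ε * lam / 2 with hδ
  have hδ0 : 0 < δ := by positivity
  filter_upwards [S.df_bound hδ0, S.log_small hδ0, S.htop.eventually (eventually_gt_atTop 0),
    eventually_gt_atTop 1] with x h1 h2 h3 h4 H h5 h6
  have hl := log_pos' h4
  have hH : 0 < H := by nlinarith
  have h7 := df_ge (h := h) (n0 := n0) S.hq' (x := x + H) (by linarith)
  have h8 := mass_le h4 hH.le
  have e : (pc (qq h n0 q') (x + H) : ℝ) - pc (qq h n0 q') x =
      (MM (x + H) - MM x) + df h n0 q' x - df h n0 q' (x + H) := by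
    unfold df
    ring
  have h9 : h x ≤ H / lam := by
    rw [le_div_iff₀ hlam]
    linarith
  calc _ = (MM (x + H) - MM x) * Real.log x + df h n0 q' x * Real.log x +
        (- df h n0 q' (x + H)) * Real.log x := by rw [e]; ring
    _ ≤ H + (1 + δ) * h x + 1 * Real.log x := by
        refine add_le_add (add_le_add h8 h1) ?_
        exact mul_le_mul_of_nonneg_right (by linarith) hl.le
    _ ≤ H + (1 + 2 * δ) * h x := by linarith
    _ ≤ H + (1 + 2 * δ) * (H / lam) := by
        have := mul_le_mul_of_nonneg_left h9 (show 0 ≤ 1 + 2 * δ by linarith)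
        linarith
    _ = (1 + 1 / lam + ε) * H := by
        rw [hδ]
        field_simp
        ring

theorem lower {lam ε : ℝ} (hlam : 0 < lam) (hε : 0 < ε) : ∀ᶠ x in atTop, ∀ H, lam * h x ≤ H → H ≤ x →
    (1 - 1 / lam - ε) * H ≤ ((pc (qq h n0 q') (x + H) : ℝ) - pc (qq h n0 q') x) * Real.log x := by
  set δ := min 1 (ε / (5 + 4 / lam)) with hδ
  have hc : 0 < 5 + 4 / lam := by positivity
  have hδ0 : 0 < δ := by positivity
  have hδ1 : δ ≤ 1 := min_le_left _ _
  have hδε : δ * (5 + 4 / lam) ≤ ε := by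
    have : δ ≤ ε / (5 + 4 / lam) := min_le_right _ _
    rwa [le_div_iff₀ hc] at this
  obtain ⟨X, hX⟩ := (S.df_bound hδ0).exists_forall_of_atTop
  filter_upwards [eventually_ge_atTop X, S.log_small hδ0, S.htop.eventually (eventually_gt_atTop 0),
    S.hsn.far S.htop hδ0, mass_ge hδ0, eventually_gt_atTop 1] with x h1 h2 h3 h4 h5 h6 H h7 h8
  have hl := log_pos' h6
  have hH : 0 < H := by nlinarith
  have h9 : h x ≤ H / lam := by
    rw [le_div_iff₀ hlam]
    linarith
  have h10 := hX (x + H) (by linarith)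
  have h11 := h4 (x + H) (by linarith)
  have hh0 : 0 ≤ h x + δ * (x + H - x) := by
    have : 0 ≤ δ * (x + H - x) := mul_nonneg hδ0.le (by linarith)
    linarith
  have h12 : df h n0 q' (x + H) * Real.log x ≤ (1 + δ) * ((1 + δ) * (h x + δ * (x + H - x))) := by
    rcases le_or_gt (df h n0 q' (x + H)) 0 with h13 | h13
    · have h14 : df h n0 q' (x + H) * Real.log x ≤ 0 := mul_nonpos_of_nonpos_of_nonneg h13 hl.le
      have h15 : 0 ≤ (1 + δ) * ((1 + δ) * (h x + δ * (x + H - x))) := by positivity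
      linarith
    · calc df h n0 q' (x + H) * Real.log x ≤ df h n0 q' (x + H) * Real.log (x + H) :=
            mul_le_mul_of_nonneg_left (Real.log_le_log (by linarith) (by linarith)) h13.le
        _ ≤ (1 + δ) * h (x + H) := h10
        _ ≤ _ := mul_le_mul_of_nonneg_left h11 (by linarith)
  have h13 := df_ge (h := h) (n0 := n0) S.hq' (x := x) h6.le
  have h14 := h5 H hH.le h8
  have e : (pc (qq h n0 q') (x + H) : ℝ) - pc (qq h n0 q') x =
      (MM (x + H) - MM x) + df h n0 q' x - df h n0 q' (x + H) := by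
    unfold df
    ring
  have e2 : ((pc (qq h n0 q') (x + H) : ℝ) - pc (qq h n0 q') x) * Real.log x =
      (MM (x + H) - MM x) * Real.log x + df h n0 q' x * Real.log x - df h n0 q' (x + H) * Real.log x := by
    rw [e]
    ring
  rw [e2]
  have h15 : -1 * Real.log x ≤ df h n0 q' x * Real.log x := mul_le_mul_of_nonneg_right h13 hl.le
  have e3 : x + H - x = H := by ring
  rw [e3] at h12
  have h16 : (1 + δ) * ((1 + δ) * (h x + δ * H)) ≤ (1 + 3 * δ) * (H / lam + δ * H) := by
    have h17 : (1 + δ) * (1 + δ) ≤ 1 + 3 * δ := by nlinarith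
    have h18 : 0 ≤ h x + δ * H := by positivity
    calc (1 + δ) * ((1 + δ) * (h x + δ * H)) = (1 + δ) * (1 + δ) * (h x + δ * H) := by ring
      _ ≤ (1 + 3 * δ) * (h x + δ * H) := mul_le_mul_of_nonneg_right h17 h18
      _ ≤ (1 + 3 * δ) * (H / lam + δ * H) := mul_le_mul_of_nonneg_left (by linarith) (by linarith)
  have h17 : Real.log x ≤ δ * (H / lam) := h2.trans (mul_le_mul_of_nonneg_left h9 hδ0.le)
  have h18 : (1 - 1 / lam - ε) * H ≤ (1 - δ) * H - δ * (H / lam) - (1 + 3 * δ) * (H / lam + δ * H) := by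
    have h19 : δ * (5 + 4 / lam) * H ≤ ε * H := mul_le_mul_of_nonneg_right hδε hH.le
    have h20 : δ * δ * H ≤ δ * H := by
      have : δ * δ ≤ δ * 1 := mul_le_mul_of_nonneg_left hδ1 hδ0.le
      have := mul_le_mul_of_nonneg_right this hH.le
      linarith
    have e4 : δ * (5 + 4 / lam) * H = 5 * (δ * H) + 4 * (δ * (H / lam)) := by
      field_simp
    have e5 : (1 - 1 / lam - ε) * H = H - H / lam - ε * H := by
      field_simp
    have e6 : (1 + 3 * δ) * (H / lam + δ * H) = H / lam + 3 * (δ * (H / lam)) + δ * H + 3 * (δ * δ * H) := by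
      ring
    rw [e5, e6]
    rw [e4] at h19
    linarith
  linarith

/-- the ends of the holes -/
theorem ends {δ : ℝ} (hδ : 0 < δ) (hδ1 : δ ≤ 1) : ∀ᶠ k in atTop,
    (1 - 2 * δ) * h (bb h n0 k - 1) ≤ (bb h n0 k - 1) - aa h n0 k ∧
      pc (qq h n0 q') (bb h n0 k - 1) = NN h n0 k := by
  have hbt : Tendsto (fun k => bb h n0 k - 1) atTop atTop := by
    refine tendsto_atTop_mono (fun k => ?_) (aa_tendsto (h := h) (n0 := n0))
    have := aa_lt_bb (h := h) (n0 := n0) k
    linarith
  filter_upwards [hbt.eventually (S.in_hole hδ hδ1), hbt.eventually (S.htop.eventually (eventually_ge_atTop (1 / δ)))]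
    with k h1 h2
  have h3 := aa_lt_bb (h := h) (n0 := n0) k
  obtain ⟨h4, h5, h6, h7, h8⟩ := h1 k (by linarith) (by linarith)
  refine ⟨?_, pc_hole S.hq' (by linarith) le_rfl⟩
  have h9 := (bb_sub_aa S.hA S.hX k).1
  have h10 := (abs_le.1 h5).2
  rw [div_le_iff₀ hδ] at h2
  have h11 : (1 - δ) * h (bb h n0 k - 1) ≤ h (aa h n0 k) := by
    have h12 : (1 - δ) * h (bb h n0 k - 1) ≤ (1 - δ) * ((1 + δ) * h (aa h n0 k)) :=
      mul_le_mul_of_nonneg_left (by linarith) (by linarith)
    nlinarith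
  linarith

/-- the count at a point that does not lie in a hole, near the end of a hole -/
theorem near {k : ℕ} {y : ℝ} (h1 : aa h n0 k ≤ 2 * y) (h2 : y ≤ 2 * bb h n0 k)
    (h3 : y < aa h n0 k ∨ bb h n0 k ≤ y) : MM y - 1 ≤ pc (qq h n0 q') y := by
  have h4 := aa_ge (h := h) (n0 := n0) k
  have h5 := aa_lt_bb (h := h) (n0 := n0) k
  refine le_pc S.hq' (by linarith) fun j hj => ?_
  rcases lt_trichotomy j k with h6 | h6 | h6
  · have h7 := bb_lt_aa (h := h) (n0 := n0) h6
    linarith
  · rw [h6] at hj ⊢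
    rcases h3 with h7 | h7
    · linarith
    · exact h7
  · have h7 := bb_lt_aa (h := h) (n0 := n0) h6
    linarith

theorem sharp_upper {lam ε : ℝ} (hlam : 0 < lam) (hε : 0 < ε) : ∃ᶠ x in atTop,
    lam * h x ≤ x ∧ (1 + 1 / lam - ε) * (lam * h x) ≤
      ((pc (qq h n0 q') (x + lam * h x) : ℝ) - pc (qq h n0 q') x) * Real.log x := by
  have hbt : Tendsto (fun k => bb h n0 k - 1) atTop atTop := by
    refine tendsto_atTop_mono (fun k => ?_) (aa_tendsto (h := h) (n0 := n0))
    have := aa_lt_bb (h := h) (n0 := n0) k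
    linarith
  refine hbt.frequently (Eventually.frequently ?_)
  set δ := min 1 (ε * lam / (lam + 6)) with hδ
  have hδ0 : 0 < δ := by positivity
  have hδ1 : δ ≤ 1 := min_le_left _ _
  have hδε : δ * (lam + 6) ≤ ε * lam := by
    have : δ ≤ ε * lam / (lam + 6) := min_le_right _ _
    rwa [le_div_iff₀ (by positivity)] at this
  filter_upwards [S.ends hδ0 hδ1, hbt.eventually (S.log_small hδ0),
    hbt.eventually (S.h_small (ε := 1 / lam) (by positivity)),
    hbt.eventually (S.htop.eventually (eventually_ge_atTop (1 / lam))),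
    hbt.eventually (mass_ge hδ0), aa_tendsto.eventually (mass_ge hδ0),
    hbt.eventually (eventually_gt_atTop 1), hbt.eventually (S.in_hole hδ0 hδ1),
    aa_tendsto.eventually (S.h_small (ε := 1 / 2) (by norm_num))] with k h1 h2 h3 h4 h5 h6 h7 h8 h8'
  set x := bb h n0 k - 1 with hx
  obtain ⟨h9, h10⟩ := h1
  have h11 := aa_lt_bb (h := h) (n0 := n0) k
  have h12 := aa_ge (h := h) (n0 := n0) k
  have hl := log_pos' h7
  have hH1 : 1 ≤ lam * h x := by
    rw [div_le_iff₀ hlam] at h4
    linarith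
  have hHx : lam * h x ≤ x := by
    have := mul_le_mul_of_nonneg_left h3 hlam.le
    calc lam * h x ≤ lam * (1 / lam * x) := this
      _ = x := by field_simp
  refine ⟨hHx, ?_⟩
  have hh : 0 < h x := by nlinarith
  have h13 := S.near (k := k) (y := x + lam * h x) (by linarith) (by linarith) (Or.inr (by linarith))
  have h14 := h5 (lam * h x) (by linarith) hHx
  obtain ⟨g1, g2, g3, g4, g5⟩ := h8 k (by linarith) (by linarith)
  have h15 := h6 (x - aa h n0 k) (by linarith) (by nlinarith)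
  have e1 : aa h n0 k + (x - aa h n0 k) = x := by ring
  rw [e1] at h15
  have e2 : MM (aa h n0 k) = NN h n0 k := MM_tt _
  have h16 : (1 - δ) * (x - aa h n0 k) ≤ (MM x - NN h n0 k) * Real.log x := by
    rw [e2] at h15
    have h17 : 0 ≤ MM x - NN h n0 k := by
      have := MM_le (a := aa h n0 k) (b := x) (by linarith) (by linarith)
      linarith
    refine h15.trans (mul_le_mul_of_nonneg_left (Real.log_le_log (by linarith) (by linarith)) h17)
  rw [h10]
  have h17 : (MM (x + lam * h x) - 1 - NN h n0 k) * Real.log x ≤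
      ((pc (qq h n0 q') (x + lam * h x) : ℝ) - NN h n0 k) * Real.log x :=
    mul_le_mul_of_nonneg_right (by linarith) hl.le
  have h18 : (1 - δ) * ((1 - 2 * δ) * h x) ≤ (1 - δ) * (x - aa h n0 k) :=
    mul_le_mul_of_nonneg_left h9 (by linarith)
  have e3 : (MM (x + lam * h x) - 1 - NN h n0 k) * Real.log x = (MM (x + lam * h x) - MM x) * Real.log x +
      (MM x - NN h n0 k) * Real.log x - Real.log x := by ring
  rw [e3] at h17
  refine le_trans ?_ h17
  have e4 : (1 + 1 / lam - ε) * (lam * h x) = lam * h x + h x - ε * lam * h x := by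
    field_simp
  rw [e4]
  have h19 : δ * (lam + 6) * h x ≤ ε * lam * h x := mul_le_mul_of_nonneg_right hδε hh.le
  have h20 : 0 ≤ δ * δ * h x := by positivity
  nlinarith

theorem sharp_lower {lam ε : ℝ} (hlam : 0 < lam) (hε : 0 < ε) : ∃ᶠ x in atTop, ∃ H : ℝ,
    lam * h x ≤ H ∧ H ≤ x ∧ ((pc (qq h n0 q') (x + H) : ℝ) - pc (qq h n0 q') x) * Real.log x ≤
      (max 0 (1 - 1 / lam) + ε) * H := by
  have hbt : Tendsto (fun k => bb h n0 k - 1) atTop atTop := by
    refine tendsto_atTop_mono (fun k => ?_) (aa_tendsto (h := h) (n0 := n0))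
    have := aa_lt_bb (h := h) (n0 := n0) k
    linarith
  set δ := min 1 (ε / (2 + 4 / lam)) with hδ
  have hδ0 : 0 < δ := by positivity
  have hδ1 : δ ≤ 1 := min_le_left _ _
  have hδε : δ * (2 + 4 / lam) ≤ ε := by
    have : δ ≤ ε / (2 + 4 / lam) := min_le_right _ _
    rwa [le_div_iff₀ (by positivity)] at this
  have hbt2 : Tendsto (fun k => (bb h n0 k - 1) - (1 + δ) * lam * h (bb h n0 k - 1)) atTop atTop := by
    have h1 : Tendsto (fun k => (bb h n0 k - 1) / 2) atTop atTop := hbt.atTop_div_const (by norm_num)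
    refine tendsto_atTop_mono' _ ?_ h1
    filter_upwards [hbt.eventually (S.h_small (ε := 1 / (2 * ((1 + δ) * lam))) (by positivity))] with k hk
    have := mul_le_mul_of_nonneg_left hk (show 0 ≤ (1 + δ) * lam by positivity)
    have e : (1 + δ) * lam * (1 / (2 * ((1 + δ) * lam)) * (bb h n0 k - 1)) = (bb h n0 k - 1) / 2 := by
      field_simp
    linarith
  refine hbt2.frequently (Eventually.frequently ?_)
  filter_upwards [S.ends hδ0 hδ1, hbt.eventually (S.hsn ((1 + δ) * lam) δ hδ0), hbt2.eventually (S.log_small hδ0),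
    hbt.eventually (S.h_small (ε := 1 / (2 * ((1 + δ) * lam))) (by positivity)),
    hbt2.eventually (eventually_gt_atTop 1), hbt.eventually (S.htop.eventually (eventually_gt_atTop 0)),
    hbt.eventually (eventually_gt_atTop 1)]
    with k h1 h2 h3 h4 h5 h6 h7
  set e := bb h n0 k - 1 with he
  set H := (1 + δ) * lam * h e with hH
  set x := e - H with hx
  obtain ⟨h8, h9⟩ := h1
  have hH0 : 0 < H := by positivity
  have h10 := h2 x (by rw [hx, sub_sub_cancel_left, abs_neg, abs_of_pos hH0])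
  have h11 := (abs_le.1 h10).2
  have hHe : H ≤ e / 2 := by
    have := mul_le_mul_of_nonneg_left h4 (show 0 ≤ (1 + δ) * lam by positivity)
    have e' : (1 + δ) * lam * (1 / (2 * ((1 + δ) * lam)) * e) = e / 2 := by
      field_simp
    linarith
  have hxe : x + H = e := by rw [hx]; ring
  have hl := log_pos' h5
  refine ⟨H, ?_, by linarith, ?_⟩
  · have : lam * h x ≤ lam * ((1 + δ) * h e) := mul_le_mul_of_nonneg_left (by linarith) hlam.le
    calc _ ≤ _ := this
      _ = H := by rw [hH]; ring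
  rw [hxe, h9]
  rcases le_or_gt (aa h n0 k) x with h12 | h12
  · have h13 : pc (qq h n0 q') x = NN h n0 k := pc_hole S.hq' h12 (by linarith)
    rw [h13, sub_self, zero_mul]
    have : 0 ≤ max 0 (1 - 1 / lam) := le_max_left _ _
    positivity
  · have hab := aa_lt_bb (h := h) (n0 := n0) k
    have ha2 := aa_ge (h := h) (n0 := n0) k
    have h13 := S.near (k := k) (y := x) (by linarith) (by linarith) (Or.inl h12)
    have e2 : MM (aa h n0 k) = NN h n0 k := MM_tt _
    have h14 := mass_le (x := x) (H := aa h n0 k - x) h5 (by linarith)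
    rw [add_sub_cancel, e2] at h14
    have h15 : ((NN h n0 k : ℝ) - pc (qq h n0 q') x) * Real.log x ≤ (NN h n0 k - MM x) * Real.log x + Real.log x := by
      have := mul_le_mul_of_nonneg_right (show (NN h n0 k : ℝ) - pc (qq h n0 q') x ≤ NN h n0 k - MM x + 1 by linarith)
        hl.le
      linarith
    have h16 : (1 - 1 / lam) * H ≤ max 0 (1 - 1 / lam) * H :=
      mul_le_mul_of_nonneg_right (le_max_right _ _) hH0.le
    have h17 : aa h n0 k - x ≤ H - (1 - 2 * δ) * h e := by linarith
    have h18 : Real.log x ≤ δ * ((1 + δ) * h e) := h3.trans (mul_le_mul_of_nonneg_left (by linarith) hδ0.le)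
    have h19 : δ * (2 + 4 / lam) * H ≤ ε * H := mul_le_mul_of_nonneg_right hδε hH0.le
    have e3 : 1 / lam * H = (1 + δ) * h e := by
      rw [hH]
      field_simp
    have e4 : δ * (2 + 4 / lam) * H = 2 * (δ * H) + 4 * δ * (1 / lam * H) := by
      field_simp
    rw [e4, e3] at h19
    have h20 : (max 0 (1 - 1 / lam) + ε) * H = max 0 (1 - 1 / lam) * H + ε * H := by ring
    rw [h20]
    have h21 : (1 - 1 / lam) * H = H - (1 + δ) * h e := by
      rw [sub_mul, one_mul, e3]
    have h22 : 0 ≤ δ * h e := by positivity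
    have h23 : 0 ≤ δ * δ * h e := by positivity
    have h24 : 0 ≤ δ * H := by positivity
    nlinarith

end Sys

end Pool.Agent.H34.BW
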